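import Pool.Agent.Y123.MZ.Fib

/-!
# The dimension conjecture for alternating sums and Clausen values is equivalent to its asymptotic form

Let `Alt w` be the `ℚ`-span of the alternating multiple zeta values of weight `w` and `Clausen w` the `ℚ`-span of the multiple
Clausen values of weight `w`. Q1 says that both have dimension `F_(w+1)`, for all `w ≥ 1`.

The only input is the existence of the algebras of motivic periods behind these two families, theorems of the literature, which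
are the two hypotheses `IsMotivicAlgebra`: a graded commutative `ℚ`-algebra without zero divisors, with graded pieces `A w` of
dimension `F_(w+1)`, and the period map, a homomorphism to `ℂ` which maps `A w` onto `Alt w` (or onto `Clausen w`). For `Alt`:
Deligne-Goncharov and Deligne (Publ. IHES 112, 2010), for the category of mixed Tate motives over `ℤ[1/2]`. There the algebra is
`ℚ[π^2] ⊗ ℚ⟨f_1, f_3, f_5, ...⟩` with the shuffle product, a polynomial ring with the Hilbert series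
`1 / (1 - t^2) * (1 - t^2) / (1 - t - t^2)`. For `Clausen`: Deligne, same paper, for the category of mixed Tate motives over
`ℤ[ω]` and the paths from `0` to `ω` in `P^1 - {0, 1, ∞}`. There it is `ℚ[πi] ⊗ ℚ⟨f_2, f_3, f_4, ...⟩`, a polynomial ring with
the Hilbert series `1 / (1 - t) * (1 - t) / (1 - t - t^2)`. (The spaces `Clausen w` contain the powers of `πi`, as
`μ_1 = - log (1 - ω) = πi / 3`, and are closed under products, by the shuffle product of iterated integrals from `0` to `ω`.)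

Theorem. Let `Z` be `Alt` or `Clausen`.

1. (Gap) If `dim Z_N ≠ F_(N+1)` for one weight `N`, then
`dim Z_(N+m) ≤ F_(N+m+1) - F_(m+1) ≤ (1 - 1 / F_(N+2)) F_(N+m+1)` for all `m`.
2. So `dim Z_w = F_(w+1)` for all `w ≥ 1` if and only if `limsup dim Z_n / F_(n+1) = 1`. So Q1 is equivalent to its asymptotic
form (even if the asymptotics are known only along a sequence of weights, one for each family). In particular Q1 holds if the
equalities hold for infinitely many weights, and an equality in the weight `n` implies those in the weights below `n`.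
3. If the dimension is wrong for some `j ≤ N` or the sum of `Z_0, ..., Z_N` is not direct, then, with
`T n = F_1 + ... + F_(n+1)`, `dim (Z_0 + ... + Z_(N+m)) ≤ T (N+m) - T m ≤ (1 - 2^(-N)) T (N+m)` for all `m`.
4. So all the dimensions are right and the sum of all the `Z_w` is direct if and only if
`limsup dim (Z_0 + ... + Z_n) / T n = 1`.

Proof. If `dim Z_N ≠ F_(N+1)`, there is `x ≠ 0` in `A N` of period zero, and multiplication by `x` embeds `A m` into the kernel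
of the period map on `A (N+m)`.
-/

set_option autoImplicit false

open Module Filter Topology

namespace Pool.Agent.Results.MP_528be1_nt.AsymptoticForm

/-- The primitive sixth root of unity `exp(πi/3)`. -/
noncomputable def omega : ℂ := Complex.exp (Real.pi * Complex.I / 3)

/-- For the list `l` of the pairs `(a_1, z_1), ..., (a_n, z_n)`, the sum of the products of the `z_j^(ℓ_j) / ℓ_j^(a_j)` over
`m > ℓ_1 > ... > ℓ_n > 0`. -/
noncomputable def trunc : List (ℕ × ℂ) → ℕ → ℂ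
  | [], _ => 1
  | p :: l, m => ∑ j ∈ Finset.Ico 1 m, p.2 ^ j / (j : ℂ) ^ p.1 * trunc l j

/-- The space spanned by the alternating multiple zeta values of weight `w` (it is `ℚ` for `w = 0`). -/
noncomputable def Alt (w : ℕ) : Submodule ℚ ℂ :=
  Submodule.span ℚ {x : ℂ | ∃ l : List (ℕ × ℂ), (∀ p ∈ l, 1 ≤ p.1 ∧ p.2 ^ 2 = 1) ∧
    (l.map Prod.fst).sum = w ∧ l.head? ≠ some (1, 1) ∧ Tendsto (trunc l) atTop (𝓝 x)}

/-- The pairs `(a_1, ω), (a_2, 1), ..., (a_n, 1)`. -/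
noncomputable def pairs : List ℕ → List (ℕ × ℂ)
  | [] => []
  | k :: a => (k, omega) :: a.map fun j => (j, 1)

/-- The space spanned by the multiple Clausen values of weight `w` (it is `ℚ` for `w = 0`). -/
noncomputable def Clausen (w : ℕ) : Submodule ℚ ℂ :=
  Submodule.span ℚ {x : ℂ | ∃ a : List ℕ, (∀ k ∈ a, 1 ≤ k) ∧ a.sum = w ∧
    Tendsto (trunc (pairs a)) atTop (𝓝 x)}

/-- The sum of the first `n + 1` of the spaces `A j` is direct. -/
def IsDirect {V : Type} [AddCommGroup V] [Module ℚ V] (A : ℕ → Submodule ℚ V) (n : ℕ) : Prop :=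
  ∀ z : ℕ → V, (∀ j ≤ n, z j ∈ A j) → (∑ j ∈ Finset.range (n + 1), z j) = 0 → ∀ j ≤ n, z j = 0

/-- The dimension of `Z_0 + ... + Z_n`. -/
noncomputable def dimSum (Z : ℕ → Submodule ℚ ℂ) (n : ℕ) : ℕ :=
  finrank ℚ (⨆ j : Fin (n + 1), Z j : Submodule ℚ ℂ)

/-- `F_1 + ... + F_(n+1)`. -/
def total (n : ℕ) : ℕ := ∑ j ∈ Finset.range (n + 1), Nat.fib (j + 1)

/-- Q1 for the family `Z`. -/
def Dimensions (Z : ℕ → Submodule ℚ ℂ) : Prop := ∀ w, 1 ≤ w → finrank ℚ (Z w) = Nat.fib (w + 1)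

/-- Q1. -/
def Q1 : Prop := ∀ w, 1 ≤ w →
  finrank ℚ (Clausen w) = Nat.fib (w + 1) ∧ finrank ℚ (Alt w) = Nat.fib (w + 1)

/-- The asymptotic form of Q1 for the family `Z`. -/
def Asymptotic (Z : ℕ → Submodule ℚ ℂ) : Prop := ∀ ε : ℝ, 0 < ε → ∀ M, ∃ n ≥ M,
  (1 - ε) * Nat.fib (n + 1) ≤ finrank ℚ (Z n)

/-- The properties of an algebra `H` of motivic periods with the grading `A` by the weight and the period map `per`, for the
family `Z`, in addition to having no zero divisors. -/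
structure IsMotivicAlgebra {H : Type} [CommRing H] [Algebra ℚ H] (A : ℕ → Submodule ℚ H) (per : H →ₐ[ℚ] ℂ)
    (Z : ℕ → Submodule ℚ ℂ) : Prop where
  mul_mem : ∀ i j, ∀ x ∈ A i, ∀ y ∈ A j, x * y ∈ A (i + j)
  direct : ∀ n, IsDirect A n
  finite : ∀ n, FiniteDimensional ℚ (A n)
  dim : ∀ n, finrank ℚ (A n) = Nat.fib (n + 1)
  image : ∀ n, (A n).map per.toLinearMap = Z n

theorem cover {H : Type} [CommRing H] [Algebra ℚ H] {A : ℕ → Submodule ℚ H} {per : H →ₐ[ℚ] ℂ}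
    {Z : ℕ → Submodule ℚ ℂ} (h : IsMotivicAlgebra A per Z) :
    Pool.Agent.Y123.MZ.Cover A per Z (fun n => Nat.fib (n + 1)) :=
  ⟨h.mul_mem, h.direct, h.finite, h.dim, h.image⟩

theorem fib_le (N m : ℕ) : Nat.fib (N + m + 1) ≤ Nat.fib (N + 2) * Nat.fib (m + 1) := by
  rw [Nat.fib_add N m, Nat.fib_add_two, add_mul]
  exact Nat.add_le_add_right (Nat.mul_le_mul_left _ Nat.fib_le_fib_succ) _

theorem real_gap {a b c K : ℕ} (hK : 0 < K) (h1 : a + b ≤ c) (h2 : c ≤ K * b) :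
    (a : ℝ) ≤ (1 - 1 / K) * c := by
  have h1' : (a : ℝ) + b ≤ c := by exact_mod_cast h1
  have h2' : (c : ℝ) ≤ K * b := by exact_mod_cast h2
  have h3 : (1 : ℝ) / K * c ≤ b := by
    rw [one_div, inv_mul_le_iff₀ (by exact_mod_cast hK)]
    exact h2'
  linarith [h3]

theorem gap {H : Type} [CommRing H] [IsDomain H] [Algebra ℚ H] {A : ℕ → Submodule ℚ H} {per : H →ₐ[ℚ] ℂ}
    {Z : ℕ → Submodule ℚ ℂ} (h : IsMotivicAlgebra A per Z) {N : ℕ}
    (hN : finrank ℚ (Z N) ≠ Nat.fib (N + 1)) (m : ℕ) :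
    finrank ℚ (Z (N + m)) + Nat.fib (m + 1) ≤ Nat.fib (N + m + 1) ∧
      (finrank ℚ (Z (N + m)) : ℝ) ≤ (1 - 1 / Nat.fib (N + 2)) * Nat.fib (N + m + 1) := by
  have h1 := Pool.Agent.Y123.MZ.gap_weight (cover h) hN m
  exact ⟨h1, real_gap (Nat.fib_pos.2 (Nat.succ_pos _)) h1 (fib_le N m)⟩

theorem asymptotic_iff {H : Type} [CommRing H] [IsDomain H] [Algebra ℚ H] {A : ℕ → Submodule ℚ H}
    {per : H →ₐ[ℚ] ℂ} {Z : ℕ → Submodule ℚ ℂ} (h : IsMotivicAlgebra A per Z) :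
    Dimensions Z ↔ Asymptotic Z := by
  constructor
  · intro hz ε hε M
    refine ⟨M + 1, Nat.le_succ M, ?_⟩
    rw [hz (M + 1) (Nat.succ_pos M)]
    have h3 : (0 : ℝ) ≤ Nat.fib (M + 1 + 1) := Nat.cast_nonneg _
    nlinarith
  · intro hz w _
    exact (Pool.Agent.Y123.MZ.weight_iff_gen (cover h) Pool.Agent.Y123.MZ.fib_pos'
      Pool.Agent.Y123.MZ.fib_bound).2 hz w

theorem sum_gap {H : Type} [CommRing H] [IsDomain H] [Algebra ℚ H] {A : ℕ → Submodule ℚ H} {per : H →ₐ[ℚ] ℂ}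
    {Z : ℕ → Submodule ℚ ℂ} (h : IsMotivicAlgebra A per Z) {N : ℕ}
    (hN : ¬ ((∀ j ≤ N, finrank ℚ (Z j) = Nat.fib (j + 1)) ∧ IsDirect Z N)) (m : ℕ) :
    dimSum Z (N + m) + total m ≤ total (N + m) ∧
      (dimSum Z (N + m) : ℝ) ≤ (1 - (1 / 2) ^ N) * total (N + m) := by
  have h1 : dimSum Z (N + m) + total m ≤ total (N + m) := Pool.Agent.Y123.MZ.gap_sum (cover h) hN m
  exact ⟨h1, Pool.Agent.Y123.MZ.real_gap' h1 (Pool.Agent.Y123.MZ.sum_bound
    Pool.Agent.Y123.MZ.fib_pos' Pool.Agent.Y123.MZ.fib_bound Pool.Agent.Y123.MZ.fib_le_sum N m)⟩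

theorem sum_iff {H : Type} [CommRing H] [IsDomain H] [Algebra ℚ H] {A : ℕ → Submodule ℚ H}
    {per : H →ₐ[ℚ] ℂ} {Z : ℕ → Submodule ℚ ℂ} (h : IsMotivicAlgebra A per Z) :
    (∀ w, finrank ℚ (Z w) = Nat.fib (w + 1) ∧ IsDirect Z w) ↔
      ∀ ε : ℝ, 0 < ε → ∀ M, ∃ n ≥ M, (1 - ε) * total n ≤ dimSum Z n :=
  Pool.Agent.Y123.MZ.sum_iff_gen (cover h) Pool.Agent.Y123.MZ.fib_pos' (Pool.Agent.Y123.MZ.sum_bound
    Pool.Agent.Y123.MZ.fib_pos' Pool.Agent.Y123.MZ.fib_bound Pool.Agent.Y123.MZ.fib_le_sum)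

/-- The theorem, see the beginning of the file. -/
theorem result {H₂ H₆ : Type} [CommRing H₂] [IsDomain H₂] [Algebra ℚ H₂] [CommRing H₆] [IsDomain H₆] [Algebra ℚ H₆]
    (A₂ : ℕ → Submodule ℚ H₂) (per₂ : H₂ →ₐ[ℚ] ℂ) (h₂ : IsMotivicAlgebra A₂ per₂ Alt)
    (A₆ : ℕ → Submodule ℚ H₆) (per₆ : H₆ →ₐ[ℚ] ℂ) (h₆ : IsMotivicAlgebra A₆ per₆ Clausen) :
    (∀ Z : ℕ → Submodule ℚ ℂ, Z = Alt ∨ Z = Clausen →
      -- 1
      (∀ N, finrank ℚ (Z N) ≠ Nat.fib (N + 1) → ∀ m,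
        finrank ℚ (Z (N + m)) + Nat.fib (m + 1) ≤ Nat.fib (N + m + 1) ∧
        (finrank ℚ (Z (N + m)) : ℝ) ≤ (1 - 1 / Nat.fib (N + 2)) * Nat.fib (N + m + 1)) ∧
      -- 2
      (Dimensions Z ↔ Asymptotic Z) ∧
      -- 3
      (∀ N, ¬ ((∀ j ≤ N, finrank ℚ (Z j) = Nat.fib (j + 1)) ∧ IsDirect Z N) → ∀ m,
        dimSum Z (N + m) + total m ≤ total (N + m) ∧
        (dimSum Z (N + m) : ℝ) ≤ (1 - (1 / 2) ^ N) * total (N + m)) ∧
      -- 4
      ((∀ w, finrank ℚ (Z w) = Nat.fib (w + 1) ∧ IsDirect Z w) ↔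
        ∀ ε : ℝ, 0 < ε → ∀ M, ∃ n ≥ M, (1 - ε) * total n ≤ dimSum Z n)) ∧
    (Q1 ↔ Asymptotic Clausen ∧ Asymptotic Alt) := by
  refine ⟨?_, ?_⟩
  · rintro Z (rfl | rfl)
    · exact ⟨fun _ hN m => gap h₂ hN m, asymptotic_iff h₂, fun _ hN m => sum_gap h₂ hN m, sum_iff h₂⟩
    · exact ⟨fun _ hN m => gap h₆ hN m, asymptotic_iff h₆, fun _ hN m => sum_gap h₆ hN m, sum_iff h₆⟩
  · rw [← asymptotic_iff h₂, ← asymptotic_iff h₆]
    exact ⟨fun h => ⟨fun w hw => (h w hw).1, fun w hw => (h w hw).2⟩,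
      fun h w hw => ⟨h.1 w hw, h.2 w hw⟩⟩

end Pool.Agent.Results.MP_528be1_nt.AsymptoticForm
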