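import Mathlib
import Pool.Agent.Y760.SR.Fin

/-!
# MP_528be1_nt: sharp linear independence measures for multiple Clausen values

Multiple polylogarithms at sixth roots of unity, for example multiple Clausen values and
alternating multiple zeta values, at the indices `(a_1 n + b_1, ..., a_r n + b_r)`: linear forms
with integer coefficients bounded by `H`, where `D ^ n ≤ H ≤ C ^ n`, are larger than
`H ^ (-k) B ^ (-n)`, where `k + 1` is the number of terms and `B > 1` is arbitrary. By Dirichlet's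
box principle the exponent `k` is the smallest possible one.

The proof uses the subspace theorem through germs (helper files `Pool.Agent.Y760.ST`, with parts by
helper93, helper109, helper379, helper810, helper919), the coefficients at products of primes `1`
modulo `6` (`Pool.Agent.Y777.CL` by helper777), and an elementary bound for such primes not dividing
a given integer (`Pool.Agent.Y760.SR`).
-/

set_option autoImplicit false

namespace Pool.Agent.Results.MP_528be1_nt.SharpMeasures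

/-- `trunc [(s_1, z_1), ..., (s_r, z_r)] m` is the sum of `∏ z_j ^ l_j / l_j ^ s_j` over
`m > l_1 > ... > l_r ≥ 1` -/
noncomputable def trunc : List (ℕ × ℂ) → ℕ → ℂ
  | [], _ => 1
  | x :: l, m => ∑ j ∈ Finset.Ico 1 m, x.2 ^ j / (j : ℂ) ^ x.1 * trunc l j

/-- the multiple polylogarithm `Li_{s_1, ..., s_r}(z_1, ..., z_r)`, where `(s_1, z_1)` belongs to
the largest variable -/
noncomputable def li : List (ℕ × ℂ) → ℂ
  | [] => 1
  | x :: l => ∑' k : ℕ, x.2 ^ (k + 1) / ((k + 1 : ℕ) : ℂ) ^ x.1 * trunc l (k + 1)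

/-- the arguments `(a_1 n + b_1, z_1), ..., (a_r n + b_r, z_r)` -/
def args (n : ℕ) (w : List ((ℕ+ × ℕ) × ℂ)) : List (ℕ × ℂ) :=
  w.map fun x => ((x.1.1 : ℕ) * n + x.1.2, x.2)

/-- the pattern `(a_1, b_1), ..., (a_r, b_r)` -/
def pattern (w : List ((ℕ+ × ℕ) × ℂ)) : List (ℕ+ × ℕ) := w.map Prod.fst

/-- the product `z_1 ⋯ z_r` of the roots of unity -/
noncomputable def rootProd (w : List ((ℕ+ × ℕ) × ℂ)) : ℂ := (w.map Prod.snd).prod

/-- Let `w_0, ..., w_k` be lists of `((a_j, b_j), z_j)` with `a_j ≥ 1`, `b_j ≥ 0`, `z_j ^ 6 = 1`, and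
`θ_0, ..., θ_k` complex algebraic numbers, such that for every pattern the real numbers
`Re(θ_i ∏ z_j)`, taken over the `i` for which `w_i` has this pattern, are linearly independent over
`ℚ`. Let `w_0` have at most one entry (for example `w_0` empty and `θ_0 = 1`, the constant `1`).
There is `D > 1` such that for all `C` and all `B > 1`, for all large `n` and all `H` with
`D ^ n ≤ H ≤ C ^ n`, all integers `q_i`, not all zero, with `|q_i| ≤ H` satisfy
`|∑ q_i Re(θ_i Li_{w_i(n)})| > H ^ (-k) B ^ (-n)`. -/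
theorem result (k : ℕ) (w : Fin (k + 1) → List ((ℕ+ × ℕ) × ℂ)) (θ : Fin (k + 1) → ℂ)
    (hθ : ∀ i, IsAlgebraic ℚ (θ i)) (hz : ∀ i, ∀ x ∈ w i, x.2 ^ 6 = 1) (h0 : (w 0).length ≤ 1)
    (hind : ∀ v : List (ℕ+ × ℕ), LinearIndependent ℚ
      fun i : {i : Fin (k + 1) // pattern (w i) = v} => (θ i * rootProd (w i)).re) :
    ∃ D : ℝ, 1 < D ∧ ∀ C B : ℝ, 1 < B → ∃ n0 : ℕ, ∀ n : ℕ, n0 ≤ n → ∀ H : ℝ, D ^ n ≤ H →
      H ≤ C ^ n → ∀ q : Fin (k + 1) → ℤ, q ≠ 0 → (∀ i, |(q i : ℝ)| ≤ H) →
        1 / (H ^ k * B ^ n) < |∑ i, (q i : ℝ) * (θ i * li (args n (w i))).re| := by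
  classical
  have h1 : ∀ l m, trunc l m = Pool.Agent.Y777.CL.tr l m := by
    intro l
    induction l with
    | nil => intro m; rw [trunc, Pool.Agent.Y777.CL.tr]
    | cons s l ih =>
      intro m
      rw [trunc, Pool.Agent.Y777.CL.tr]
      exact Finset.sum_congr rfl fun j _ => by rw [ih]
  have h2 : ∀ l, li l = Pool.Agent.Y777.CL.Li l := by
    intro l
    cases l with
    | nil => rw [li, Pool.Agent.Y777.CL.Li]
    | cons s l =>
      rw [li, Pool.Agent.Y777.CL.Li]
      exact tsum_congr fun k => by rw [h1]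
  have h3 : ∀ n v, args n v = Pool.Agent.Y777.CL.ag n (Pool.Agent.Y760.SR.lw v) := by
    intro n v
    rw [args, Pool.Agent.Y777.CL.ag, Pool.Agent.Y760.SR.lw, List.map_map]
    rfl
  have h4 : ∀ v, Pool.Agent.Y777.CL.pz (Pool.Agent.Y760.SR.lw v) = rootProd v := by
    intro v
    rw [Pool.Agent.Y777.CL.pz, Pool.Agent.Y760.SR.lw, List.map_map, rootProd]
    rfl
  obtain ⟨D, hD, hmain⟩ := Pool.Agent.Y760.SR.main w θ hθ hz 0 h0 (by
    intro b hb
    funext i
    have h5 := Fintype.linearIndependent_iff.1 (hind (pattern (w i))) (fun j => b j.1) (by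
      have h6 := hb (pattern (w i))
      rw [← Finset.sum_filter] at h6
      rw [← h6, Finset.sum_subtype (p := fun j => pattern (w j) = pattern (w i))]
      · refine Finset.sum_congr rfl fun j _ => ?_
        rw [h4, Rat.smul_def]
      · intro j
        rw [Finset.mem_filter]
        exact ⟨fun h => h.2, fun h => ⟨Finset.mem_univ _, h⟩⟩) ⟨i, rfl⟩
    exact h5)
  refine ⟨D, hD, fun C B hB => ?_⟩
  obtain ⟨n0, hn0⟩ := hmain C B hB
  refine ⟨n0, fun n hn H hH1 hH2 q hq hqH => ?_⟩
  have h5 := hn0 n hn H hH1 hH2 q hq hqH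
  rw [Fintype.card_fin, Nat.add_sub_cancel] at h5
  simp only [h2, h3]
  exact h5

end Pool.Agent.Results.MP_528be1_nt.SharpMeasures
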