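import Mathlib
import Pool.Agent.Y777.CL.S

/-!
# MP_528be1_nt: relations of exponential height between multiple Clausen values

Fix distinct patterns such as `(n, 1)`, `(2 n + 3, n, 5)` and for each of them a vector of sixth
roots of unity, for example `(ω, 1, ..., 1)` (multiple Clausen values) or a vector of signs
(alternating multiple zeta values). For all large `n` the values at `n` satisfy no nontrivial
rational linear relation with coefficients of height at most `C ^ n`, also together with `1`.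
-/

set_option autoImplicit false

namespace Pool.Agent.Results.MP_528be1_nt.SixthRootHeights

/-- `trunc [(s_1, z_1), ..., (s_r, z_r)] m` is the sum of `∏ z_j ^ l_j / l_j ^ s_j` over
`m > l_1 > ... > l_r ≥ 1` -/
noncomputable def trunc : List (ℕ × ℂ) → ℕ → ℂ
  | [], _ => 1
  | x :: l, m => ∑ j ∈ Finset.Ico 1 m, x.2 ^ j / (j : ℂ) ^ x.1 * trunc l j

/-- the multiple polylogarithm `Li_{s_1, ..., s_r}(z_1, ..., z_r)`, where `(s_1, z_1)` belongs to
the largest variable -/
noncomputable def li : List (ℕ × ℂ) → ℂ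
  | [] => 1
  | x :: l => ∑' k : ℕ, x.2 ^ (k + 1) / ((k + 1 : ℕ) : ℂ) ^ x.1 * trunc l (k + 1)

/-- lists `[((a_1, b_1), z_1), ..., ((a_r, b_r), z_r)]` with `r ≥ 1`, `z_j ^ 6 = 1`, `a_1 ≥ 1`,
no `(a_j, b_j)` equal to `(0, 0)`, and `z_j = 1` for all `j` with `a_j = 0` -/
def Admissible : List ((ℕ × ℕ) × ℂ) → Prop
  | [] => False
  | x :: l => (1 ≤ x.1.1 ∧ x.2 ^ 6 = 1) ∧
      ∀ y ∈ l, y.1 ≠ (0, 0) ∧ y.2 ^ 6 = 1 ∧ (y.1.1 = 0 → y.2 = 1)

/-- the arguments `(a_1 n + b_1, z_1), ..., (a_r n + b_r, z_r)` -/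
def args (n : ℕ) (w : List ((ℕ × ℕ) × ℂ)) : List (ℕ × ℂ) :=
  w.map fun x => (x.1.1 * n + x.1.2, x.2)

/-- Let `w_1, ..., w_k` be admissible lists whose patterns `[(a_1, b_1), ..., (a_r, b_r)]` are
pairwise different. For every `C` there are `B > 1` and `n0` such that for all `n ≥ n0`, all
integers `a` and `c_1, ..., c_k`, not all zero, with `|c_i| ≤ C ^ n`, the real part of
`a + ∑ c_i Li_{w_i(n)}` has absolute value more than `B ^ (-n)`. -/
theorem result (k : ℕ) (w : Fin k → List ((ℕ × ℕ) × ℂ)) (hw : ∀ i, Admissible (w i))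
    (hdist : ∀ i j, (w i).map Prod.fst = (w j).map Prod.fst → i = j) (C : ℝ) :
    ∃ B : ℝ, 1 < B ∧ ∃ n0 : ℕ, ∀ n : ℕ, n0 ≤ n → ∀ (a : ℤ) (c : Fin k → ℤ),
      (a ≠ 0 ∨ c ≠ 0) → (∀ i, |(c i : ℝ)| ≤ C ^ n) →
      (B ^ n)⁻¹ < |((a : ℂ) + ∑ i, (c i : ℂ) * li (args n (w i))).re| := by
  have h1 : ∀ l m, trunc l m = Pool.Agent.Y777.CL.tr l m := by
    intro l
    induction l with
    | nil => intro m; rw [trunc, Pool.Agent.Y777.CL.tr]
    | cons s l ih =>
      intro m
      rw [trunc, Pool.Agent.Y777.CL.tr]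
      exact Finset.sum_congr rfl fun j _ => by rw [ih]
  have h2 : ∀ l, li l = Pool.Agent.Y777.CL.Li l := by
    intro l
    cases l with
    | nil => rw [li, Pool.Agent.Y777.CL.Li]
    | cons s l =>
      rw [li, Pool.Agent.Y777.CL.Li]
      exact tsum_congr fun k => by rw [h1]
  have h3 : ∀ v, Admissible v → Pool.Agent.Y777.CL.AD v := by
    intro v hv
    cases v with
    | nil => exact absurd hv (fun h => h)
    | cons x l =>
      refine ⟨List.cons_ne_nil _ _, hv.1.1, ?_, ?_⟩
      · intro y hy h0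
        rw [Pool.Agent.Y777.CL.pt_cons] at hy
        rcases List.mem_cons.1 hy with rfl | hy
        · have := hv.1.1
          omega
        · obtain ⟨z, hz, rfl⟩ := List.mem_map.1 hy
          have h4 := (hv.2 z hz).1
          by_contra h5
          exact h4 (Prod.ext h0 (by simp only; omega))
      · intro y hy
        rcases List.mem_cons.1 hy with rfl | hy
        · exact ⟨hv.1.2, fun h0 => by have := hv.1.1; omega⟩
        · exact (hv.2 y hy).2
  obtain ⟨B, hB, n0, hmain⟩ := Pool.Agent.Y777.CL.main w (fun i => h3 _ (hw i))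
    (fun i j h => hdist i j h) C
  refine ⟨B, hB, n0, fun n hn a c hac hc => ?_⟩
  have h4 := hmain n hn a c hac hc
  have h5 : ((a : ℂ) + ∑ i, (c i : ℂ) * li (args n (w i))).re =
      (a : ℝ) + ∑ i, (c i : ℝ) * (Pool.Agent.Y777.CL.Li (Pool.Agent.Y777.CL.ag n (w i))).re := by
    rw [Complex.add_re, Complex.intCast_re, Complex.re_sum]
    congr 1
    refine Finset.sum_congr rfl fun i _ => ?_
    rw [h2, ← Complex.ofReal_intCast, Complex.re_ofReal_mul]
    rfl
  rw [h5]
  exact h4

end Pool.Agent.Results.MP_528be1_nt.SixthRootHeights
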